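import Mathlib
import Pool.Agent.Y166.SM.Final
import Pool.Agent.Y785.SM.Aff

/-!
# Two Manin components in one curve class

Let `X` be the projective bundle over the Grassmannian `Gr(3, 6)` whose points are the pairs
`(W, q)`, where `W` is a three-dimensional subspace of `k ^ 6` and `q` is a nonzero element of the
symmetric square of `W` up to a scalar, with projections to the Grassmannian (Plücker class `g`) and
to the projective space of the symmetric `6 × 6` matrices (hyperplane class `H`); `X` is the
resolution of the variety of symmetric matrices of rank at most three. It is smooth of dimension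
`14`, its Picard group has the basis `g, H`, and `K_X = - 6 H - 2 g = - 9 H + D`, where
`D = 3 H - 2 g` is the class of the divisor of the pairs with degenerate `q`. The divisor `D` is
contracted by the birational morphism to the variety of symmetric matrices. So `L = H` is big and
nef, `a(X, L) = 9`, `κ(K_X + 9 L) = κ(D) = 0`, and `F(X, L)` is the ray of the nef classes `α` with
`D · α = 0`; the class `α` with `g · α = 3` and `H · α = 2` generates it. The space of the morphisms
from the projective line to `X` of class `α` is `MorBi (Xsym k) 3 2`. It has two irreducible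
components whose family maps do not factor rationally through any thin morphism, so that both are
Manin components.
-/

set_option autoImplicit false

namespace Pool.Agent.Results.MP_ac098b_ag.TwoManin

open Pool.Agent.Y166.GM (PP IsProjVar IsMorphism)
open Pool.Agent.Y166.SM

theorem result (k : Type) [Field k] [IsAlgClosed k] [CharZero k] :
    IsProjVar (Xsym k) ∧ CoveredByAffine (Xsym k) 14 ∧
    ∃ M₀ M₁ : Set (MorBi (Xsym k) 3 2), M₀ ≠ M₁ ∧
      M₀ ∈ irreducibleComponents (MorBi (Xsym k) 3 2) ∧
      M₁ ∈ irreducibleComponents (MorBi (Xsym k) 3 2) ∧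
      (∀ (n : ℕ) (Y : Set (PP k (Fin (n + 1)))) (f : PP k (Fin (n + 1)) → PP k (S3 × S2)),
        IsProjVar Y → IsMorphism Y f → Set.MapsTo f Y (Xsym k) → Thin Y (Xsym k) f →
          ¬ FactorsRat M₀ Y f ∧ ¬ FactorsRat M₁ Y f) ∧
      ∀ I : Invariants (Xsym k), M₀ ∈ maninComponents I 3 2 ∧ M₁ ∈ maninComponents I 3 2 := by
  refine ⟨Xsym_projVar, Pool.Agent.Y785.SM.stmAff k, Mcomp k false, Mcomp k true, Mcomp_ne, Mcomp_mem _, Mcomp_mem _,
    ?_, fun I => ⟨Mcomp_manin _ I, Mcomp_manin _ I⟩⟩
  intro n Y f hY hf hfZ hT
  exact ⟨Mcomp_fac _ hY hf hfZ hT, Mcomp_fac _ hY hf hfZ hT⟩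

end Pool.Agent.Results.MP_ac098b_ag.TwoManin
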